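import Mathlib
import Pool.Agent.MixCutoff.Params

/-!
A sequence of finite connected vertex-transitive graphs satisfying the product condition
whose lazy simple random walks have no cutoff in total variation.
-/

namespace Pool.Agent.Results.MP_4b7267_pr.NoCutoff

open Filter Topology
open Pool.Agent.MixCutoff

theorem card_tendsto : Tendsto (fun k => Fintype.card (AA k × HH k)) atTop atTop := by
  apply tendsto_atTop_mono (f := fun k => k) _ tendsto_id
  intro k
  have h1 : 1 ≤ Fintype.card (AA k) := Fintype.card_pos_iff.mpr ⟨0⟩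
  have h2 : Fintype.card (HH k) = mm k * qq k ^ (nn k - 2) := by rw [ZMod.card]; rfl
  have h3 : 1 ≤ qq k ^ (nn k - 2) := Nat.pow_pos (qq_prime k).pos
  rw [Fintype.card_prod, h2]
  have h4 : k ≤ mm k := by unfold mm; omega
  calc k ≤ mm k := h4
    _ ≤ mm k * qq k ^ (nn k - 2) := Nat.le_mul_of_pos_right _ h3
    _ ≤ Fintype.card (AA k) * (mm k * qq k ^ (nn k - 2)) := Nat.le_mul_of_pos_left _ h1

theorem product_condition :
    Tendsto (fun k => (tmix (GG k) (1 / 4) : ℝ) / trel (GG k)) atTop atTop := by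
  have hlin : Tendsto (fun k : ℕ => ((k : ℕ) : ℝ) / 4) atTop atTop :=
    tendsto_natCast_atTop_atTop.atTop_div_const (by norm_num)
  apply tendsto_atTop_mono _ hlin
  intro k
  have h1 : k + 11 < tmix (GG k) (1 / 4) := by
    apply tmix_gt k _ (by norm_num)
    intro t ht
    have hmm : mm k = 4 * (k + 11) := rfl
    have h2 := dist_lower k t (by omega)
    have h3 : (t : ℝ) / mm k ≤ 1 / 4 := by
      have h4 : (0 : ℝ) < mm k := by
        have := mm_ge k
        have : 0 < mm k := by omega
        exact_mod_cast this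
      rw [div_le_div_iff₀ h4 (by norm_num)]
      have : t * 4 ≤ 1 * mm k := by omega
      exact_mod_cast this
    linarith
  have h2 := trel_pos k
  have h3 := trel_le k
  have h4 : ((k : ℕ) : ℝ) ≤ tmix (GG k) (1 / 4) := by
    have : k ≤ tmix (GG k) (1 / 4) := by omega
    exact_mod_cast this
  have h5 : (0 : ℝ) ≤ k := Nat.cast_nonneg k
  rw [div_le_div_iff₀ (by norm_num) h2]
  nlinarith

theorem no_cutoff : ¬ HasCutoff GG := by
  intro h
  have h1 := h (1 / 20) (by norm_num) (by norm_num)
  have h2 : ∀ᶠ k in atTop, (tmix (GG k) (1 / 20) : ℝ) / (tmix (GG k) (1 - 1 / 20) : ℝ) ∈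
      Set.Ioo (1 / 2 : ℝ) (3 / 2) := h1 (Ioo_mem_nhds (by norm_num) (by norm_num))
  obtain ⟨k, hk⟩ := h2.exists
  have hmm : mm k = 4 * (k + 11) := rfl
  have hm0 : (0 : ℝ) < mm k := by
    have := mm_ge k
    have : 0 < mm k := by omega
    exact_mod_cast this
  -- lower bound for the mixing time at level 1/20
  have hlow : 2 * (k + 11) < tmix (GG k) (1 / 20) := by
    apply tmix_gt k _ (by norm_num)
    intro t ht
    have h2 := dist_lower k t (by omega)
    have h3 : (t : ℝ) / mm k ≤ 1 / 2 := by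
      rw [div_le_div_iff₀ hm0 (by norm_num)]
      have : t * 2 ≤ 1 * mm k := by omega
      exact_mod_cast this
    linarith
  -- upper bound for the mixing time at level 19/20
  have hup : tmix (GG k) (1 - 1 / 20) ≤ k + 11 := by
    apply tmix_le
    refine (dist_upper k (k + 11)).trans ?_
    have h3 : (3 / 4 : ℝ) ^ (k + 11) ≤ 1 / 20 := by
      calc (3 / 4 : ℝ) ^ (k + 11) ≤ (3 / 4 : ℝ) ^ 11 :=
            pow_le_pow_of_le_one (by norm_num) (by norm_num) (by omega)
        _ ≤ 1 / 20 := by norm_num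
    have h4 : (1 : ℝ) / 9 ≤ ((k + 11 : ℕ) : ℝ) / (2 * ((mm k : ℝ) + 1)) := by
      rw [div_le_div_iff₀ (by norm_num) (by positivity), hmm]
      push_cast
      have : (0 : ℝ) ≤ k := Nat.cast_nonneg k
      linarith
    have h5 : 1 / (1 + ((k + 11 : ℕ) : ℝ) / (2 * ((mm k : ℝ) + 1))) ≤ 9 / 10 := by
      rw [div_le_div_iff₀ (by positivity) (by norm_num)]
      linarith
    linarith
  rcases Nat.eq_zero_or_pos (tmix (GG k) (1 - 1 / 20)) with h0 | hpos
  · have h6 := hk.1
    rw [h0, Nat.cast_zero, div_zero] at h6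
    norm_num at h6
  · have h6 : (2 : ℝ) ≤ (tmix (GG k) (1 / 20) : ℝ) / (tmix (GG k) (1 - 1 / 20) : ℝ) := by
      have h7 : (0 : ℝ) < (tmix (GG k) (1 - 1 / 20) : ℝ) := by exact_mod_cast hpos
      rw [le_div_iff₀ h7]
      have : 2 * tmix (GG k) (1 - 1 / 20) ≤ tmix (GG k) (1 / 20) := by omega
      exact_mod_cast this
    have := hk.2
    linarith

/-- There is a sequence of finite connected vertex-transitive graphs `G n` with
`|V (G n)| → ∞` and `t_mix / t_rel → ∞` whose lazy simple random walks have no total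
variation cutoff. -/
theorem result :
    ∃ (V : ℕ → Type) (_ : ∀ n, Fintype (V n)) (G : ∀ n, SimpleGraph (V n)),
      (∀ n, (G n).Connected) ∧ (∀ n, VertexTransitive (G n)) ∧
      Tendsto (fun n => Fintype.card (V n)) atTop atTop ∧
      Tendsto (fun n => (tmix (G n) (1 / 4) : ℝ) / trel (G n)) atTop atTop ∧
      ¬ HasCutoff G :=
  ⟨fun k => AA k × HH k, fun _ => inferInstance, GG,
    fun _ => gr_connected _ _ zero_mem_lines, fun _ => gr_transitive _ _,
    card_tendsto, product_condition, no_cutoff⟩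

end Pool.Agent.Results.MP_4b7267_pr.NoCutoff
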